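import Pool.Agent.MP_cce4c9_lc.H87.SpecR

/-!
Semantics of the chart at infinity.
-/

set_option autoImplicit false

open Polynomial Finset

namespace Pool.Agent.MP_cce4c9_lc.H76

open Pool.Agent.MP_cce4c9_lc.H87 Pool.Agent.MP_cce4c9_lc.H87.Cv

variable {k : Type} [Field k] {d m : ℕ} {f : k[X]} (C : Cv k d m f)

/-- The element `s` of the chart ring. -/
noncomputable def sI : C.AI := ⟨C.s, Algebra.subset_adjoin (Set.mem_insert _ _)⟩

/-- The coordinates as elements of the chart ring. -/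
noncomputable def YI (i : ℕ) : C.AI :=
  if h : i < m then ⟨C.Y i, Algebra.subset_adjoin (Set.mem_insert_of_mem _ ⟨i, h, rfl⟩)⟩ else 0

theorem sI_val : (sI C : C.Q) = C.s := rfl

theorem YI_val {i : ℕ} (h : i < m) : (YI C i : C.Q) = C.Y i := by rw [YI, dif_pos h]

/-- Monomials as elements of the chart ring. -/
noncomputable def monoI (e J : ℕ) : C.AI := sI C ^ e * ∏ i ∈ range m, YI C i ^ dig d J i

theorem monoI_val (e J : ℕ) : (monoI C e J : C.Q) = C.mono e J := by
  rw [monoI, Cv.mono]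
  push_cast
  rw [sI_val]
  exact congrArg _ (prod_congr rfl fun i hi => by rw [YI_val C (mem_range.1 hi)])

theorem eqI (h : C.HA) {i : ℕ} (hi : i < m) : YI C i ^ d + ∑ j ∈ range d,
    algebraMap k C.AI (f.coeff j) * sI C ^ (d - j) * YI C i ^ j = sI C ^ (d - 1) := by
  refine Subtype.ext ?_
  push_cast
  simp only [sI_val, YI_val C hi]
  exact h.eqY i hi

theorem coeff_inp {B : Ds} {R : Type} [CommRing R] {π : Pres B R} {P : R →+* k} {fl : List El}
    (h : Inp π P fl d f) {j : ℕ} (hj : j < d) : P (π.val (fl.getD j [])) = f.coeff j := by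
  obtain ⟨h1, -, rfl⟩ := h
  rw [coeff_map, toM, coeff_add, coeff_toP π.hm.nil, coeff_X_pow, if_neg (by omega), zero_add]

theorem len_inp {B : Ds} {R : Type} [CommRing R] {π : Pres B R} {P : R →+* k} {fl : List El}
    (h : Inp π P fl d f) (j : ℕ) : (fl.getD j []).length ≤ dim B := by
  rcases lt_or_ge j fl.length with hj | hj
  · rw [List.getD_eq_getElem _ _ hj]
    exact h.2.1 _ (List.getElem_mem hj)
  · rw [List.getD_eq_default _ _ hj]
    simp

theorem lvl {D : Ds} {R S : Type} [CommRing R] [CommRing S] (π : Pres D R) {h : List El}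
    {L : ℕ} (hL : h.length = L) (hL0 : 0 < L) (V : ℕ) (φ : R →+* S) (y : ℕ → S)
    (hy : ∀ i < V, (toM π.val h).eval₂ φ (y i) = 0) :
    ∃ (R' : Type) (_ : CommRing R') (π' : Pres (tower D h V).1 R') (φ' : R' →+* S),
      (tower D h V).1.1 = D.1 ∧ dim D ≤ dim (tower D h V).1 ∧
      (∀ i, ((tower D h V).2.getD i []).length ≤ dim (tower D h V).1) ∧
      (∀ a : El, a.length ≤ dim D → φ' (π'.val a) = φ (π.val a)) ∧
      (∀ i < V, φ' (π'.val ((tower D h V).2.getD i [])) = y i) ∧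
      ∀ a : El, φ' (π'.val a) = ∑ J ∈ range (L ^ V), φ (π.val (chunk D a J)) *
        ∏ i ∈ range V, y i ^ dig L J i := by
  subst hL
  obtain ⟨R', _, ⟨T⟩⟩ := exists_tow π (List.length_pos_iff.1 hL0) V
  obtain ⟨φ', h1, h2⟩ := T.univ S φ y hy
  refine ⟨R', inferInstance, T.π', φ', T.ch, ?_, T.rlen, fun a ha => ?_, h2, fun a => ?_⟩
  · rw [T.dm]
    exact Nat.le_mul_of_pos_right _ (pow_pos hL0 V)
  · rw [T.val_inc a ha, h1]
  · rw [T.expand a, map_sum]
    refine sum_congr rfl fun J _ => ?_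
    rw [map_mul, h1, map_prod]
    refine congrArg _ (prod_congr rfl fun i hi => ?_)
    rw [map_pow, h2 i (mem_range.1 hi)]

theorem exists_quot (n : ℕ) : ∃ (S : Type) (_ : CommRing S) (pr : C.AI →+* S),
    ∀ y : C.AI, pr y = 0 ↔ ∃ r ∈ C.AI, (y : C.Q) = C.s ^ n * r := by
  refine ⟨C.AI ⧸ Ideal.span {sI C ^ n}, inferInstance, Ideal.Quotient.mk _, fun y => ?_⟩
  rw [Ideal.Quotient.eq_zero_iff_mem, Ideal.mem_span_singleton]
  constructor
  · rintro ⟨r, rfl⟩
    exact ⟨r, r.2, rfl⟩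
  · rintro ⟨r, hr, h⟩
    exact ⟨⟨r, hr⟩, Subtype.ext h⟩

theorem halg : StmtHALG := by
  intro k _ d m f C B R _ π P fl n hA hI hn
  have hd := C.hd
  have hlen : (fstar (tr1 B n) (rt1 B n) fl d).length = d := by simp [fstar]
  obtain ⟨S, _, pr, hker⟩ := exists_quot C n
  obtain ⟨φ0, hφ0⟩ : ∃ φ0 : R →+* S, ∀ r, φ0 r = pr (algebraMap k C.AI (P r)) :=
    ⟨pr.comp ((algebraMap k C.AI).comp P), fun _ => rfl⟩
  obtain ⟨R1, _, π1, φ1, ch1, hdm1, hls, hc1, hs1, hx1⟩ :
      ∃ (R1 : Type) (_ : CommRing R1) (π1 : Pres (tr1 B n) R1) (φ1 : R1 →+* S),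
      (tr1 B n).1 = B.1 ∧ dim B ≤ dim (tr1 B n) ∧ (rt1 B n).length ≤ dim (tr1 B n) ∧
      (∀ a : El, a.length ≤ dim B → φ1 (π1.val a) = φ0 (π.val a)) ∧
      φ1 (π1.val (rt1 B n)) = pr (sI C) ∧
      ∀ a : El, φ1 (π1.val a) = ∑ e ∈ range n, φ0 (π.val (chunk B a e)) * pr (sI C) ^ e := by
    obtain ⟨R1, _, π1, φ1, h1, h2, h3, h4, h5, h6⟩ := lvl π (h := List.replicate n [])
      List.length_replicate hn 1 φ0 (fun _ => pr (sI C)) (fun i _ => by
        rw [toM_replicate π.hm.nil, eval₂_X_pow, ← map_pow, hker]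
        exact ⟨1, one_mem _, by rw [mul_one]; rfl⟩)
    refine ⟨R1, inferInstance, π1, φ1, h1, h2, h3 0, h4, h5 0 one_pos, fun a => (h6 a).trans ?_⟩
    rw [pow_one]
    refine sum_congr rfl fun e he => ?_
    have hdig : dig n e 0 = e := by simp [dig, Nat.mod_eq_of_lt (mem_range.1 he)]
    rw [prod_range_one, hdig]
  have hm1 : Hm (tr1 B n) fun a => φ1 (π1.val a) := π1.hm.comp φ1
  obtain ⟨RH, _, πH, Ψ, ch2, hdm2, hlY, hc2, hYH, hx2⟩ :
      ∃ (RH : Type) (_ : CommRing RH) (πH : Pres (hatT B fl d m n).1 RH) (Ψ : RH →+* S),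
      (hatT B fl d m n).1.1 = (tr1 B n).1 ∧ dim (tr1 B n) ≤ dim (hatT B fl d m n).1 ∧
      (∀ i, ((hatT B fl d m n).2.getD i []).length ≤ dim (hatT B fl d m n).1) ∧
      (∀ a : El, a.length ≤ dim (tr1 B n) → Ψ (πH.val a) = φ1 (π1.val a)) ∧
      (∀ i < m, Ψ (πH.val ((hatT B fl d m n).2.getD i [])) = pr (YI C i)) ∧
      ∀ a : El, Ψ (πH.val a) = ∑ J ∈ range (d ^ m), φ1 (π1.val (chunk (tr1 B n) a J)) *
        ∏ i ∈ range m, pr (YI C i) ^ dig d J i := by
    refine lvl π1 hlen (by omega) m φ1 (fun i => pr (YI C i)) (fun i hi => ?_)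
    rw [KTow.eval₂_toM, hlen]
    have e : ∀ j ∈ range d, φ1 (π1.val ((fstar (tr1 B n) (rt1 B n) fl d).getD j [])) *
        pr (YI C i) ^ j = pr (algebraMap k C.AI (f.coeff j) * sI C ^ (d - j) * YI C i ^ j) -
          if j = 0 then pr (sI C ^ (d - 1)) else 0 := by
      intro j hj
      have hj' := mem_range.1 hj
      rw [fstar, KTow.getD_range_map hj', hm1.sub, hm1.mul, hm1.pw, hs1, hc1 _ (len_inp hI j),
        hφ0, coeff_inp hI hj']
      split_ifs with h0
      · subst h0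
        rw [hm1.pw, hs1]
        simp
      · rw [hm1.cst]
        simp
    rw [sum_congr rfl e, sum_sub_distrib, sum_ite_eq', if_pos (mem_range.2 (by omega)),
      ← map_sum, ← map_pow, ← add_sub_assoc, ← map_add, eqI C hA hi, sub_self]
  have hsH : Ψ (πH.val (rt1 B n)) = pr (sI C) := by rw [hc2 _ hls, hs1]
  have hcH : ∀ a : El, a.length ≤ dim B →
      Ψ (πH.val a) = pr (algebraMap k C.AI (P (π.val a))) := fun a ha => by
    rw [hc2 _ (ha.trans hdm1), hc1 a ha, hφ0]
  refine ⟨⟨RH, πH, S, pr, hker, Ψ, ch2.trans ch1, hdm1.trans hdm2, hls.trans hdm2,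
    hlY, hcH, fun y hy => ?_, fun i hi y hy => ?_, fun a => ?_, ?_, ?_⟩⟩
  · rw [hsH]
    exact congrArg pr (Subtype.ext hy.symm)
  · rw [hYH i hi]
    exact congrArg pr (Subtype.ext ((YI_val C hi).trans hy.symm))
  · refine ⟨∑ J ∈ range (d ^ m), ∑ e ∈ range n,
      algebraMap k C.AI (P (π.val (coefH B n a e J))) * monoI C e J, ?_, ?_⟩
    · rw [Cv.rec']
      push_cast
      simp only [monoI_val]
    · rw [hx2, map_sum]
      refine sum_congr rfl fun J _ => ?_
      rw [hx1, map_sum, sum_mul]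
      refine sum_congr rfl fun e _ => ?_
      rw [hφ0, monoI, map_mul, map_mul, map_pow, map_prod, mul_assoc, coefH]
      simp only [map_pow]
  · intro A ψ N c c' y hψ hH hc hy
    have hy' : y = ∑ J ∈ range (d ^ m), ∑ e ∈ range (N + 1 - ds d m J),
        algebraMap k C.AI (c' e J) * monoI C e J := by
      refine Subtype.ext ?_
      rw [hy, Cv.hat]
      push_cast
      simp only [monoI_val]
    rw [hy', mkHat, hψ.sumL_range, map_sum]
    refine sum_congr rfl fun J _ => ?_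
    rw [hψ.sumL_range, map_sum]
    refine sum_congr rfl fun e _ => ?_
    rw [hψ.mul, hψ.mul, hψ.pw, hψ.prodL_range, hc, hH _ (hls.trans hdm2), hsH, monoI, map_mul,
      map_mul, map_pow, map_prod]
    refine congrArg _ (congrArg _ (prod_congr rfl fun i hi => ?_))
    rw [hψ.pw, hH _ (hlY i), hYH i (mem_range.1 hi), map_pow]
  · intro A ψ y hψ hH hy
    have hy' : y = ∏ i ∈ range m, ∑ j ∈ range d,
        algebraMap k C.AI ((derivative f).coeff j) * sI C ^ (d - 1 - j) * YI C i ^ j := by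
      refine Subtype.ext ?_
      rw [hy, hA.dlh_eq]
      push_cast
      refine prod_congr rfl fun i hi => ?_
      simp only [sI_val, YI_val C (mem_range.1 hi)]
    rw [hy', delH, hψ.prodL_range, map_prod]
    refine prod_congr rfl fun i hi => ?_
    rw [hψ.sumL_range, map_sum]
    refine sum_congr rfl fun j hj => ?_
    have hj' := mem_range.1 hj
    have hl : fl.length = d := hI.1
    have hF : ψ ((fullL A fl).getD (j + 1) []) = pr (algebraMap k C.AI (f.coeff (j + 1))) := by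
      rcases (Nat.succ_le_of_lt hj').lt_or_eq with h | h
      · rw [fullL, List.getD_append _ _ _ _ (by omega),
          hH _ ((len_inp hI _).trans (hdm1.trans hdm2)), hcH _ (len_inp hI _), coeff_inp hI h]
      · rw [fullL, List.getD_append_right _ _ _ _ (by omega)]
        have h3 : j + 1 - fl.length = 0 := by omega
        have h4 : f.coeff (j + 1) = 1 := by
          have h5 := C.monic.coeff_natDegree
          rwa [C.deg, ← h] at h5
        rw [h3, List.getD_cons_zero, hψ.cst, h4]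
        simp
    rw [hψ.mul, hψ.mul, hψ.pw, hψ.pw, hH _ (hls.trans hdm2), hsH, hH _ (hlY i),
      hYH i (mem_range.1 hi), derL,
      KTow.getD_range_map (by simp [fullL]; omega), hψ.mul, hψ.cst, hF, coeff_derivative]
    simp only [map_mul, map_pow, map_add, map_natCast, map_one]
    push_cast
    ring

end Pool.Agent.MP_cce4c9_lc.H76
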